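import Pool.Agent.Helper49_LCR.Final
import Pool.Agent.Helper49_LCR.Ord
import Pool.Agent.Helper75_LCR.K33
import Pool.Agent.Helper75_LCR.Dec
import Pool.Agent.Helper72_LCR.GEN
import Pool.Agent.Helper72_LCR.MID
import Pool.Agent.Helper91_LCR.Seg
import Pool.Agent.Helper91_LCR.Sel
import Pool.Agent.Helper91_LCR.Sub2
import Pool.Agent.Helper91_LCR.Tpl2
import Pool.Agent.Helper92_LCR.Poly

/-!
# The local crossing number cannot be approximated within any constant factor (MP_759a94_lc)

* every language in NP has, for every `C`, a polynomial-time computable reduction `f` to graphs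
  such that `lcr (f x) ≤ 1` for `x ∈ L` and `lcr (f x) > C`, `lcr (f x) ^ 16 > |V (f x)|` for
  `x ∉ L`;
* hence, if there is a polynomial-time `c`-approximation algorithm for the local crossing number
  for some constant `c`, then P = NP.
-/

namespace Pool.Agent.Results.MP_759a94_lc.NotApproximable

open Pool.Agent.LCR
open Pool.Agent.Helper32_HCK (InNP languageProblem)

theorem result :
    (∀ L : Set (List Bool), InNP (languageProblem L) → ∀ C : ℕ,
      ∃ f : List Bool → Σ N : ℕ, SimpleGraph (Fin N),
        Nonempty (Turing.TM2ComputableInPolyTime (id : List Bool → List Bool) encGraph f) ∧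
        ∀ x, (x ∈ L → lcr (f x).2 ≤ 1) ∧
          (x ∉ L → C < lcr (f x).2 ∧ (f x).1 < lcr (f x).2 ^ 16)) ∧
    ((∃ (c : ℝ) (A : (Σ N : ℕ, SimpleGraph (Fin N)) → ℕ), IsApprox c A) →
      ∀ L : Set (List Bool), InNP (languageProblem L) → InP (languageProblem L)) :=
  final H91.sel (ord (star H75.k33)) H91.sub MID.mid H91.tpl H92.poly GEN.gen H91.seg
    Pool.Agent.SO.H92.kred H75.dec

end Pool.Agent.Results.MP_759a94_lc.NotApproximable
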